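import Pool.Agent.Helper10.SP.GoalsT
import Pool.Agent.Helper67.Lin.MOLC

/-!
# FRIE: the commutator lemma of Friedrichs
-/

open Complex Metric Set Filter Topology MeasureTheory
open scoped ContDiff ComplexConjugate ComplexOrder Manifold ENNReal

namespace Pool.Agent.Helper33.SP

open Pool.Agent.Helper95.Lin Pool.Agent.Helper10.SP Pool.Agent.Helper67.Lin

/-! ### The inequality of Young -/

theorem lint_cs {α : Type*} [MeasurableSpace α] (μ : Measure α) {F κ : α → ℝ≥0∞}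
    (hF : AEMeasurable F μ) (hκ : AEMeasurable κ μ) :
    (∫⁻ y, F y * κ y ∂μ) ^ (2 : ℝ) ≤ (∫⁻ y, F y ^ (2 : ℝ) * κ y ∂μ) * ∫⁻ y, κ y ∂μ := by
  have h := ENNReal.lintegral_mul_le_Lp_mul_Lq μ (p := 2) (q := 2)
    (by rw [Real.holderConjugate_iff]; norm_num)
    (f := fun y => F y * κ y ^ (1 / 2 : ℝ)) (g := fun y => κ y ^ (1 / 2 : ℝ))
    (hF.mul (hκ.pow_const _)) (hκ.pow_const _)
  have e1 : ∀ y, κ y ^ (1 / 2 : ℝ) * κ y ^ (1 / 2 : ℝ) = κ y := by
    intro y
    rw [← ENNReal.rpow_add_of_nonneg _ _ (by norm_num) (by norm_num)]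
    norm_num
  have e2 : ∀ y, (κ y ^ (1 / 2 : ℝ)) ^ (2 : ℝ) = κ y := by
    intro y
    rw [← ENNReal.rpow_mul]
    norm_num
  have e3 : ∀ y, (F y * κ y ^ (1 / 2 : ℝ)) ^ (2 : ℝ) = F y ^ (2 : ℝ) * κ y := by
    intro y
    rw [ENNReal.mul_rpow_of_nonneg _ _ (by norm_num), e2]
  have e4 : ∀ y, ((fun y => F y * κ y ^ (1 / 2 : ℝ)) * fun y => κ y ^ (1 / 2 : ℝ)) y =
      F y * κ y := by
    intro y
    rw [Pi.mul_apply, mul_assoc, e1]
  simp only [e2, e3, e4] at h
  calc (∫⁻ y, F y * κ y ∂μ) ^ (2 : ℝ) ≤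
      ((∫⁻ y, F y ^ (2 : ℝ) * κ y ∂μ) ^ (1 / 2 : ℝ) * (∫⁻ y, κ y ∂μ) ^ (1 / 2 : ℝ)) ^ (2 : ℝ) :=
        ENNReal.rpow_le_rpow h (by norm_num)
    _ = _ := by
      rw [ENNReal.mul_rpow_of_nonneg _ _ (by norm_num), ← ENNReal.rpow_mul, ← ENNReal.rpow_mul]
      norm_num

/-- The norm of an integral operator whose kernel is dominated by a convolution kernel. -/
theorem young {n : ℕ} (f : Cn n → ℂ) (hf : AEStronglyMeasurable f volume) (K : Cn n → Cn n → ℂ)
    (k : Cn n → ℝ) (hk : Measurable k) (hK : ∀ x y, ‖K x y‖ ≤ k (x - y)) :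
    eLpNorm (fun x => ∫ y, f y * K x y) 2 volume ≤
      (∫⁻ w, ENNReal.ofReal (k w)) * eLpNorm f 2 volume := by
  have hF : AEMeasurable (fun y => ‖f y‖ₑ) volume := hf.enorm
  have hκ : Measurable fun w => ENNReal.ofReal (k w) := hk.ennreal_ofReal
  have h1 : ∀ x, ‖∫ y, f y * K x y‖ₑ ≤ ∫⁻ y, ‖f y‖ₑ * ENNReal.ofReal (k (x - y)) := by
    intro x
    refine (enorm_integral_le_lintegral_enorm _).trans (lintegral_mono fun y => ?_)
    rw [enorm_mul]
    gcongr
    rw [← ofReal_norm]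
    exact ENNReal.ofReal_le_ofReal (hK x y)
  have hS : ∀ x : Cn n, ∫⁻ y, ENNReal.ofReal (k (x - y)) = ∫⁻ w, ENNReal.ofReal (k w) := fun x =>
    lintegral_sub_left_eq_self (fun w => ENNReal.ofReal (k w)) x
  have hS' : ∀ y : Cn n, ∫⁻ x, ENNReal.ofReal (k (x - y)) = ∫⁻ w, ENNReal.ofReal (k w) :=
    fun y => lintegral_sub_right_eq_self (fun w => ENNReal.ofReal (k w)) y
  have h2 : ∀ x, ‖∫ y, f y * K x y‖ₑ ^ (2 : ℝ) ≤
      (∫⁻ y, ‖f y‖ₑ ^ (2 : ℝ) * ENNReal.ofReal (k (x - y))) * ∫⁻ w, ENNReal.ofReal (k w) := by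
    intro x
    refine (ENNReal.rpow_le_rpow (h1 x) (by norm_num)).trans ?_
    rw [← hS x]
    exact lint_cs volume hF (hκ.comp (measurable_const.sub measurable_id)).aemeasurable
  have h3 : ∫⁻ x, ‖∫ y, f y * K x y‖ₑ ^ (2 : ℝ) ≤
      (∫⁻ w, ENNReal.ofReal (k w)) ^ (2 : ℝ) * ∫⁻ y, ‖f y‖ₑ ^ (2 : ℝ) := by
    have hm : AEMeasurable (fun p : Cn n × Cn n => ‖f p.2‖ₑ ^ (2 : ℝ) *
        ENNReal.ofReal (k (p.1 - p.2))) (volume.prod volume) := by
      refine AEMeasurable.mul ?_ ?_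
      · exact (hF.pow_const _).comp_snd
      · exact (hκ.comp (measurable_fst.sub measurable_snd)).aemeasurable
    calc ∫⁻ x, ‖∫ y, f y * K x y‖ₑ ^ (2 : ℝ) ≤
        ∫⁻ x, (∫⁻ y, ‖f y‖ₑ ^ (2 : ℝ) * ENNReal.ofReal (k (x - y))) *
          ∫⁻ w, ENNReal.ofReal (k w) := lintegral_mono h2
      _ = (∫⁻ x, ∫⁻ y, ‖f y‖ₑ ^ (2 : ℝ) * ENNReal.ofReal (k (x - y))) *
          ∫⁻ w, ENNReal.ofReal (k w) := by
        refine lintegral_mul_const'' _ ?_
        exact hm.lintegral_prod_right'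
      _ = (∫⁻ y, ∫⁻ x, ‖f y‖ₑ ^ (2 : ℝ) * ENNReal.ofReal (k (x - y))) *
          ∫⁻ w, ENNReal.ofReal (k w) := by
        rw [lintegral_lintegral_swap hm]
      _ = _ := by
        have e1 : ∀ y, ∫⁻ x, ‖f y‖ₑ ^ (2 : ℝ) * ENNReal.ofReal (k (x - y)) =
            ‖f y‖ₑ ^ (2 : ℝ) * ∫⁻ w, ENNReal.ofReal (k w) := by
          intro y
          have hm2 : Measurable fun x : Cn n => ENNReal.ofReal (k (x - y)) :=
            hκ.comp (measurable_id.sub measurable_const)
          rw [lintegral_const_mul _ hm2, hS' y]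
        simp only [e1]
        rw [lintegral_mul_const'' _ (hF.pow_const _), ENNReal.rpow_two]
        ring
  rw [eLpNorm_eq_lintegral_rpow_enorm_toReal (by norm_num) (by norm_num),
    eLpNorm_eq_lintegral_rpow_enorm_toReal (by norm_num) (by norm_num)]
  simp only [ENNReal.toReal_ofNat]
  calc (∫⁻ x, ‖∫ y, f y * K x y‖ₑ ^ (2 : ℝ)) ^ (1 / (2 : ℝ)) ≤
      ((∫⁻ w, ENNReal.ofReal (k w)) ^ (2 : ℝ) * ∫⁻ y, ‖f y‖ₑ ^ (2 : ℝ)) ^ (1 / (2 : ℝ)) :=
        ENNReal.rpow_le_rpow h3 (by norm_num)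
    _ = _ := by
      rw [ENNReal.mul_rpow_of_nonneg _ _ (by norm_num), ← ENNReal.rpow_mul]
      norm_num

/-- Measurability of the integral operator. -/
theorem op_aesm {n : ℕ} (f : Cn n → ℂ) (hf : AEStronglyMeasurable f volume)
    (K : Cn n → Cn n → ℂ) (hK : Continuous fun p : Cn n × Cn n => K p.1 p.2) :
    AEStronglyMeasurable (fun x => ∫ y, f y * K x y) volume := by
  have h : AEStronglyMeasurable (fun p : Cn n × Cn n => f p.2 * K p.1 p.2)
      (volume.prod volume) := (hf.comp_snd).mul hK.aestronglyMeasurable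
  exact h.integral_prod_right'

/-! ### The derivative `cdb` -/

theorem cdb_cont {n : ℕ} {g : Cn n → ℂ} (hg : ContDiff ℝ ∞ g) (l : Fin n) :
    Continuous (cdb l g) := by
  have h := hg.continuous_fderiv (by simp)
  unfold cdb
  fun_prop

theorem cdb_cs {n : ℕ} {g : Cn n → ℂ} (hg : HasCompactSupport g) (l : Fin n) :
    HasCompactSupport (cdb l g) := by
  refine (hg.fderiv ℝ).mono ?_
  intro y hy
  rw [Function.mem_support] at hy ⊢
  intro h
  apply hy
  unfold cdb
  rw [h]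
  simp

/-- The mollifier as a complex function. -/
noncomputable def mc (n : ℕ) (ε : ℝ) (y : Cn n) : ℂ := ((mol n ε y : ℝ) : ℂ)

theorem mc_contDiff (n : ℕ) (ε : ℝ) : ContDiff ℝ ∞ (mc n ε) :=
  Complex.ofRealCLM.contDiff.comp (mol_contDiff ε)

theorem mc_cs (n : ℕ) {ε : ℝ} (hε : 0 < ε) : HasCompactSupport (mc n ε) :=
  (mol_cs hε).comp_left Complex.ofReal_zero

theorem cdb_kernel {n : ℕ} {a φ : Cn n → ℂ} (ha : ContDiff ℝ ∞ a) (hφ : ContDiff ℝ ∞ φ)
    (c : ℂ) (x y : Cn n) (l : Fin n) :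
    cdb l (fun y' => (a y' - c) * φ (x - y')) y =
      (a y - c) * (-(cdb l φ (x - y))) + φ (x - y) * cdb l a y := by
  have h1 : HasFDerivAt (fun y' => a y' - c) (fderiv ℝ a y) y :=
    ((ha.differentiable (by simp) y).hasFDerivAt).sub_const c
  have h2 : HasFDerivAt (fun y' : Cn n => x - y') (-(ContinuousLinearMap.id ℝ (Cn n))) y :=
    (hasFDerivAt_id y).const_sub x
  have h3 : HasFDerivAt φ (fderiv ℝ φ (x - y)) (x - y) :=
    (hφ.differentiable (by simp) _).hasFDerivAt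
  have h4 := h1.mul (h3.comp y h2)
  have h5 : fderiv ℝ (fun y' => (a y' - c) * φ (x - y')) y =
      (a y - c) • (fderiv ℝ φ (x - y)).comp (-(ContinuousLinearMap.id ℝ (Cn n))) +
        φ (x - y) • fderiv ℝ a y := h4.fderiv
  unfold cdb
  rw [h5]
  simp
  ring

/-- Integration by parts. -/
theorem cdb_parts {n : ℕ} {g ψ : Cn n → ℂ} (hg : ContDiff ℝ ∞ g) (hψ : ContDiff ℝ ∞ ψ)
    (hc : HasCompactSupport ψ) (l : Fin n) :
    ∫ y, g y * cdb l ψ y = -∫ y, cdb l g y * ψ y := by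
  have key : ∀ v : Cn n, Integrable (fun y => g y * fderiv ℝ ψ y v) volume ∧
      Integrable (fun y => fderiv ℝ g y v * ψ y) volume ∧
      ∫ y, g y * fderiv ℝ ψ y v = -∫ y, fderiv ℝ g y v * ψ y := by
    intro v
    have c1 := hg.continuous_fderiv (by simp)
    have c2 := hψ.continuous_fderiv (by simp)
    have c3 := hg.continuous
    have c4 := hψ.continuous
    have s1 : HasCompactSupport fun y => fderiv ℝ ψ y v := by
      refine (hc.fderiv ℝ).mono ?_
      intro y hy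
      rw [Function.mem_support] at hy ⊢
      intro h
      apply hy
      rw [h]
      simp
    have i1 : Integrable (fun y => g y * fderiv ℝ ψ y v) volume :=
      Continuous.integrable_of_hasCompactSupport (by fun_prop) s1.mul_left
    have i2 : Integrable (fun y => fderiv ℝ g y v * ψ y) volume :=
      Continuous.integrable_of_hasCompactSupport (by fun_prop) hc.mul_left
    have i3 : Integrable (fun y => g y * ψ y) volume :=
      Continuous.integrable_of_hasCompactSupport (by fun_prop) hc.mul_left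
    exact ⟨i1, i2, integral_mul_fderiv_eq_neg_fderiv_mul_of_integrable i2 i1 i3
      (fun x _ => hg.differentiable (by simp) x) fun x _ => hψ.differentiable (by simp) x⟩
  obtain ⟨a1, a2, a3⟩ := key (Pi.single l 1)
  obtain ⟨b1, b2, b3⟩ := key (Pi.single l I)
  have e1 : ∀ y, g y * cdb l ψ y = g y * fderiv ℝ ψ y (Pi.single l 1) +
      I * (g y * fderiv ℝ ψ y (Pi.single l I)) := by
    intro y
    unfold cdb
    ring
  have e2 : ∀ y, cdb l g y * ψ y = fderiv ℝ g y (Pi.single l 1) * ψ y +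
      I * (fderiv ℝ g y (Pi.single l I) * ψ y) := by
    intro y
    unfold cdb
    ring
  simp only [e1, e2]
  rw [integral_add a1 (b1.const_mul I), integral_add a2 (b2.const_mul I), integral_const_mul,
    integral_const_mul, a3, b3]
  ring

/-! ### Scaling -/

theorem bump_scale (n : ℕ) {ε : ℝ} (hε : 0 < ε) (y : Cn n) :
    bump n ε y = bump n 1 (ε⁻¹ • y) := by
  unfold bump
  congr 1
  congr 1
  rw [one_pow, div_one, Finset.sum_div]
  refine Finset.sum_congr rfl fun j _ => ?_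
  rw [Pi.smul_apply, norm_smul, mul_pow, Real.norm_of_nonneg (inv_nonneg.2 hε.le), inv_pow]
  ring

/-- The bump function as a complex function. -/
noncomputable def bc (n : ℕ) (y : Cn n) : ℂ := ((bump n 1 y : ℝ) : ℂ)

theorem bc_contDiff (n : ℕ) : ContDiff ℝ ∞ (bc n) :=
  Complex.ofRealCLM.contDiff.comp (bump_contDiff 1)

theorem cdb_mc (n : ℕ) {ε : ℝ} (hε : 0 < ε) (l : Fin n) (w : Cn n) :
    cdb l (mc n ε) w = ((∫ x, bump n ε x)⁻¹ : ℝ) * ((ε⁻¹ : ℝ) * cdb l (bc n) (ε⁻¹ • w)) := by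
  have h0 : mc n ε = fun y => ((∫ x, bump n ε x)⁻¹ : ℝ) • bc n (ε⁻¹ • y) := by
    funext y
    unfold mc mol bc
    rw [bump_scale n hε y, Complex.real_smul]
    push_cast
    ring
  have h1 : HasFDerivAt (fun y : Cn n => ε⁻¹ • y) (ε⁻¹ • ContinuousLinearMap.id ℝ (Cn n)) w :=
    (hasFDerivAt_id w).const_smul ε⁻¹
  have h2 : HasFDerivAt (bc n) (fderiv ℝ (bc n) (ε⁻¹ • w)) (ε⁻¹ • w) :=
    ((bc_contDiff n).differentiable (by simp) _).hasFDerivAt
  have h3 := (h2.comp w h1).const_smul ((∫ x, bump n ε x)⁻¹ : ℝ)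
  have h4 : fderiv ℝ (mc n ε) w = ((∫ x, bump n ε x)⁻¹ : ℝ) •
      ((fderiv ℝ (bc n) (ε⁻¹ • w)).comp (ε⁻¹ • ContinuousLinearMap.id ℝ (Cn n))) := by
    rw [h0]
    exact h3.fderiv
  unfold cdb
  rw [h4]
  simp
  ring

/-- The integral of `‖w‖ |∇ mol|` does not depend on `ε`. -/
theorem int_scale (n : ℕ) {ε : ℝ} (hε : 0 < ε) (l : Fin n) :
    ∫ w : Cn n, ‖w‖ * ‖cdb l (mc n ε) w‖ =
      (∫ x : Cn n, bump n 1 x)⁻¹ * ∫ w : Cn n, ‖w‖ * ‖cdb l (bc n) w‖ := by
  have hpos : 0 < ∫ x : Cn n, bump n ε x := bump_int hε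
  have e1 : ∀ w : Cn n, ‖w‖ * ‖cdb l (mc n ε) w‖ = (∫ x : Cn n, bump n ε x)⁻¹ *
      ((fun w => ‖w‖ * ‖cdb l (bc n) w‖) (ε⁻¹ • w)) := by
    intro w
    rw [cdb_mc n hε, norm_mul, norm_mul, Complex.norm_real, Complex.norm_real,
      Real.norm_of_nonneg (inv_nonneg.2 hpos.le), Real.norm_of_nonneg (inv_nonneg.2 hε.le)]
    simp only []
    rw [norm_smul, Real.norm_of_nonneg (inv_nonneg.2 hε.le)]
    ring
  simp only [e1]
  rw [integral_const_mul, Measure.integral_comp_inv_smul_of_nonneg volume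
    (fun w : Cn n => ‖w‖ * ‖cdb l (bc n) w‖) hε.le]
  have e2 : ∫ x : Cn n, bump n ε x = ε ^ Module.finrank ℝ (Cn n) * ∫ x : Cn n, bump n 1 x := by
    have : ∀ x : Cn n, bump n ε x = bump n 1 (ε⁻¹ • x) := bump_scale n hε
    simp only [this]
    rw [Measure.integral_comp_inv_smul_of_nonneg volume (bump n 1) hε.le, smul_eq_mul]
  have h1 : 0 < ∫ x : Cn n, bump n 1 x := bump_int one_pos
  rw [e2, smul_eq_mul]
  have h2 : (0 : ℝ) < ε ^ Module.finrank ℝ (Cn n) := pow_pos hε _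
  field_simp

/-! ### The kernel -/

/-- The kernel of the commutator. -/
noncomputable def ker {n : ℕ} (a : Cn n → ℂ) (l : Fin n) (ε : ℝ) (x y : Cn n) : ℂ :=
  cdb l (fun y' => (a y' - a x) * (mol n ε (x - y') : ℂ)) y

theorem ker_eq {n : ℕ} {a : Cn n → ℂ} (ha : ContDiff ℝ ∞ a) (l : Fin n) (ε : ℝ) (x y : Cn n) :
    ker a l ε x y = (a y - a x) * (-(cdb l (mc n ε) (x - y))) + mc n ε (x - y) * cdb l a y :=
  cdb_kernel ha (mc_contDiff n ε) (a x) x y l

theorem ker_cont {n : ℕ} {a : Cn n → ℂ} (ha : ContDiff ℝ ∞ a) (l : Fin n) (ε : ℝ) :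
    Continuous fun p : Cn n × Cn n => ker a l ε p.1 p.2 := by
  have h1 := cdb_cont (mc_contDiff n ε) l
  have h2 := (mc_contDiff n ε).continuous
  have h3 := cdb_cont ha l
  have h4 := ha.continuous
  simp only [ker_eq ha]
  fun_prop

theorem norm_mc (n : ℕ) {ε : ℝ} (hε : 0 < ε) (w : Cn n) : ‖mc n ε w‖ = mol n ε w := by
  unfold mc
  rw [Complex.norm_real, Real.norm_of_nonneg (mol_nonneg hε w)]

theorem ker_cs {n : ℕ} {a : Cn n → ℂ} (l : Fin n) {ε : ℝ} (hε : 0 < ε) (x : Cn n) :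
    HasCompactSupport (ker a l ε x) := by
  refine cdb_cs ?_ l
  have h1 : HasCompactSupport fun y' : Cn n => mc n ε (x - y') :=
    (mc_cs n hε).comp_homeomorph (Homeomorph.subLeft x)
  exact h1.mul_left

theorem frie : S_FRIE := by
  intro n a f ha hacs hf l
  -- constants
  obtain ⟨La, hLa⟩ := ha.lipschitzWith_of_hasCompactSupport hacs (by simp)
  obtain ⟨Da, hDa⟩ := (cdb_cs hacs l).exists_bound_of_continuous (cdb_cont ha l)
  have hDa0 : 0 ≤ Da := (norm_nonneg _).trans (hDa 0)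
  have hL : ∀ x y : Cn n, ‖a y - a x‖ ≤ La * ‖x - y‖ := by
    intro x y
    have := hLa.dist_le_mul y x
    rwa [dist_eq_norm, dist_eq_norm, norm_sub_rev y x] at this
  have hLa0 : (0 : ℝ) ≤ La := La.2
  obtain ⟨S, hS⟩ : ∃ S : ℝ, S = La * ((∫ x : Cn n, bump n 1 x)⁻¹ *
      ∫ w : Cn n, ‖w‖ * ‖cdb l (bc n) w‖) + Da := ⟨_, rfl⟩
  -- the first bound
  have hA : ∀ ε : ℝ, 0 < ε → ∀ h : Cn n → ℂ, AEStronglyMeasurable h volume →
      eLpNorm (fun x => ∫ y, h y * ker a l ε x y) 2 volume ≤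
        ENNReal.ofReal S * eLpNorm h 2 volume := by
    intro ε hε h hh
    have c1 := cdb_cont (mc_contDiff n ε) l
    have c2 := mol_cont (n := n) ε
    have hk : Continuous fun w : Cn n => La * (‖w‖ * ‖cdb l (mc n ε) w‖) + Da * mol n ε w := by
      fun_prop
    have hint1 : Integrable (fun w : Cn n => ‖w‖ * ‖cdb l (mc n ε) w‖) volume :=
      Continuous.integrable_of_hasCompactSupport (by fun_prop)
        ((cdb_cs (mc_cs n hε) l).norm.mul_left)
    have hint2 : Integrable (mol n ε) volume :=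
      c2.integrable_of_hasCompactSupport (mol_cs hε)
    have hK : ∀ x y, ‖ker a l ε x y‖ ≤ (fun w : Cn n => La * (‖w‖ * ‖cdb l (mc n ε) w‖) +
        Da * mol n ε w) (x - y) := by
      intro x y
      rw [ker_eq ha]
      refine (norm_add_le _ _).trans ?_
      rw [norm_mul, norm_mul, norm_neg, norm_mc n hε]
      have e1 := mul_le_mul_of_nonneg_right (hL x y) (norm_nonneg (cdb l (mc n ε) (x - y)))
      have e2 := mul_le_mul_of_nonneg_left (hDa y) (mol_nonneg hε (x - y))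
      simp only []
      nlinarith
    have hy := young h hh (ker a l ε) _ hk.measurable hK
    refine hy.trans (mul_le_mul_left ?_ _)
    have hint : Integrable (fun w : Cn n => La * (‖w‖ * ‖cdb l (mc n ε) w‖) + Da * mol n ε w)
        volume := (hint1.const_mul _).add (hint2.const_mul _)
    rw [← ofReal_integral_eq_lintegral_ofReal hint
      (Eventually.of_forall fun w => add_nonneg (mul_nonneg hLa0 (by positivity))
        (mul_nonneg hDa0 (mol_nonneg hε w))), integral_add (hint1.const_mul _)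
      (hint2.const_mul _), integral_const_mul, integral_const_mul, int_scale n hε,
      mol_int hε, mul_one, hS]
  -- the second bound
  have hB : ∀ ε : ℝ, 0 < ε → ∀ g : Cn n → ℂ, ContDiff ℝ ∞ g →
      eLpNorm (fun x => ∫ y, g y * ker a l ε x y) 2 volume ≤
        ENNReal.ofReal (La * ε) * eLpNorm (cdb l g) 2 volume := by
    intro ε hε g hg
    have c2 := mol_cont (n := n) ε
    have h0 : (fun x => ∫ y, g y * ker a l ε x y) =
        fun x => ∫ y, cdb l g y * (-((a y - a x) * mc n ε (x - y))) := by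
      funext x
      have h1 : ContDiff ℝ ∞ fun y' : Cn n => (a y' - a x) * mc n ε (x - y') :=
        (ha.sub contDiff_const).mul ((mc_contDiff n ε).comp (contDiff_const.sub contDiff_id))
      have h2 : HasCompactSupport fun y' : Cn n => (a y' - a x) * mc n ε (x - y') := by
        have h1 : HasCompactSupport fun y' : Cn n => mc n ε (x - y') :=
          (mc_cs n hε).comp_homeomorph (Homeomorph.subLeft x)
        exact h1.mul_left
      have h3 := cdb_parts hg h1 h2 l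
      show ∫ y, g y * cdb l (fun y' => (a y' - a x) * mc n ε (x - y')) y = _
      rw [h3, ← integral_neg]
      congr 1
      funext y
      ring
    rw [h0]
    have hK : ∀ x y, ‖-((a y - a x) * mc n ε (x - y))‖ ≤
        (fun w : Cn n => La * ε * mol n ε w) (x - y) := by
      intro x y
      rw [norm_neg, norm_mul, norm_mc n hε]
      simp only []
      by_cases h0 : mol n ε (x - y) = 0
      · rw [h0]
        simp
      · have e1 := (norm_lt_of_mol hε h0).le
        have e2 : ‖a y - a x‖ ≤ La * ε := (hL x y).trans (mul_le_mul_of_nonneg_left e1 hLa0)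
        exact mul_le_mul_of_nonneg_right e2 (mol_nonneg hε _)
    have hy := young (cdb l g) (cdb_cont hg l).aestronglyMeasurable
      (fun x y => -((a y - a x) * mc n ε (x - y))) _ (c2.measurable.const_mul _) hK
    refine hy.trans (mul_le_mul_left ?_ _)
    have hint2 : Integrable (mol n ε) volume :=
      c2.integrable_of_hasCompactSupport (mol_cs hε)
    rw [← ofReal_integral_eq_lintegral_ofReal (hint2.const_mul _)
      (Eventually.of_forall fun w => mul_nonneg (mul_nonneg hLa0 hε.le) (mol_nonneg hε w)),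
      integral_const_mul, mol_int hε, mul_one]
  have hmem : ∀ ε : ℝ, 0 < ε → MemLp (fun x => ∫ y, f y * ker a l ε x y) 2 volume := by
    intro ε hε
    exact ⟨op_aesm f hf.1 (ker a l ε) (ker_cont ha l ε),
      (hA ε hε f hf.1).trans_lt (ENNReal.mul_lt_top ENNReal.ofReal_lt_top hf.2)⟩
  refine ⟨hmem, ?_⟩
  -- the limit
  have hlim : Tendsto (fun ε => eLpNorm (fun x => ∫ y, f y * ker a l ε x y) 2 volume)
      (𝓝[>] 0) (𝓝 0) := by
    rw [ENNReal.tendsto_nhds_zero]
    intro η hη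
    have hη2 : (0 : ℝ≥0∞) < η / 2 := ENNReal.half_pos hη.ne'
    obtain ⟨δ, hδ, hδ'⟩ : ∃ δ : ℝ, 0 < δ ∧ ENNReal.ofReal S * ENNReal.ofReal δ ≤ η / 2 := by
      have h1 : Tendsto (fun δ : ℝ => ENNReal.ofReal S * ENNReal.ofReal δ) (𝓝[>] 0) (𝓝 0) := by
        have h2 : Tendsto (fun δ : ℝ => ENNReal.ofReal S * ENNReal.ofReal δ) (𝓝 0)
            (𝓝 (ENNReal.ofReal S * ENNReal.ofReal 0)) :=
          ENNReal.Tendsto.const_mul (ENNReal.tendsto_ofReal tendsto_id)
            (Or.inr ENNReal.ofReal_ne_top)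
        rw [ENNReal.ofReal_zero, mul_zero] at h2
        exact h2.mono_left nhdsWithin_le_nhds
      have h3 := (ENNReal.tendsto_nhds_zero.1 h1 _ hη2).and self_mem_nhdsWithin
      obtain ⟨δ, h4, h5⟩ := h3.exists
      exact ⟨δ, h5, h4⟩
    obtain ⟨g, hg1, hg2, hg3⟩ := hf.exist_eLpNorm_sub_le (by norm_num) (by norm_num) hδ
    have hgm : MemLp g 2 volume := hg2.continuous.memLp_of_hasCompactSupport hg1
    have hN : MemLp (cdb l g) 2 volume :=
      (cdb_cont hg2 l).memLp_of_hasCompactSupport (cdb_cs hg1 l)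
    have h6 : ∀ᶠ ε : ℝ in 𝓝[>] 0, ENNReal.ofReal (La * ε) * eLpNorm (cdb l g) 2 volume ≤
        η / 2 := by
      have h1 : Tendsto (fun ε : ℝ => ENNReal.ofReal (La * ε) * eLpNorm (cdb l g) 2 volume)
          (𝓝[>] 0) (𝓝 0) := by
        have h2 : Tendsto (fun ε : ℝ => ENNReal.ofReal (La * ε) * eLpNorm (cdb l g) 2 volume)
            (𝓝 0) (𝓝 (ENNReal.ofReal (La * 0) * eLpNorm (cdb l g) 2 volume)) :=
          ENNReal.Tendsto.mul_const (ENNReal.tendsto_ofReal (tendsto_id.const_mul _))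
            (Or.inr hN.2.ne)
        rw [mul_zero, ENNReal.ofReal_zero, zero_mul] at h2
        exact h2.mono_left nhdsWithin_le_nhds
      exact ENNReal.tendsto_nhds_zero.1 h1 _ hη2
    filter_upwards [h6, self_mem_nhdsWithin] with ε h7 hε
    have hε : 0 < ε := hε
    have hdec : (fun x => ∫ y, f y * ker a l ε x y) =
        (fun x => ∫ y, (f - g) y * ker a l ε x y) + fun x => ∫ y, g y * ker a l ε x y := by
      funext x
      have hk : MemLp (ker a l ε x) 2 volume := by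
        have hc : Continuous (ker a l ε x) :=
          (ker_cont ha l ε).comp (continuous_const.prodMk continuous_id)
        exact hc.memLp_of_hasCompactSupport (ker_cs l hε x)
      have i1 : Integrable (fun y => (f - g) y * ker a l ε x y) volume :=
        (hf.sub hgm).integrable_mul hk
      have i2 : Integrable (fun y => g y * ker a l ε x y) volume := hgm.integrable_mul hk
      rw [Pi.add_apply, ← integral_add i1 i2]
      congr 1
      funext y
      rw [Pi.sub_apply]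
      ring
    rw [hdec]
    have hm1 : AEStronglyMeasurable (fun x => ∫ y, (f - g) y * ker a l ε x y) volume :=
      op_aesm _ (hf.sub hgm).1 (ker a l ε) (ker_cont ha l ε)
    have hm2 : AEStronglyMeasurable (fun x => ∫ y, g y * ker a l ε x y) volume :=
      op_aesm _ hgm.1 (ker a l ε) (ker_cont ha l ε)
    calc eLpNorm _ 2 volume ≤ _ := eLpNorm_add_le hm1 hm2 (by norm_num)
      _ ≤ ENNReal.ofReal S * ENNReal.ofReal δ +
          ENNReal.ofReal (La * ε) * eLpNorm (cdb l g) 2 volume := by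
        refine add_le_add ((hA ε hε _ (hf.sub hgm).1).trans ?_) (hB ε hε g hg2)
        exact mul_le_mul_right hg3 _
      _ ≤ η / 2 + η / 2 := add_le_add hδ' h7
      _ = η := ENNReal.add_halves η
  have hreal : Tendsto (fun ε => (eLpNorm (fun x => ∫ y, f y * ker a l ε x y) 2 volume).toReal ^ 2)
      (𝓝[>] 0) (𝓝 0) := by
    have h1 := (ENNReal.tendsto_toReal ENNReal.zero_ne_top).comp hlim
    rw [ENNReal.toReal_zero] at h1
    have h2 := h1.pow 2
    simpa using h2
  refine hreal.congr' ?_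
  filter_upwards [self_mem_nhdsWithin] with ε hε
  have hε : 0 < ε := hε
  rw [(hmem ε hε).eLpNorm_eq_integral_rpow_norm (by norm_num) (by norm_num)]
  simp only [ENNReal.toReal_ofNat]
  have h0 : (0 : ℝ) ≤ ∫ x, ‖∫ y, f y * ker a l ε x y‖ ^ (2 : ℝ) :=
    integral_nonneg fun x => by positivity
  rw [ENNReal.toReal_ofReal (Real.rpow_nonneg h0 _), ← Real.rpow_natCast, ← Real.rpow_mul h0]
  norm_num
  rfl

end Pool.Agent.Helper33.SP
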