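import Pool.Agent.Helper45.SP.GoalsF
import Pool.Agent.Helper68.Lin.CAU
import Pool.Agent.Helper19.Lin.IDT

/-!
# LSCALE: a limit of difference quotients is a generator
-/

open Complex Metric Set Filter Topology
open scoped ContDiff ComplexConjugate

namespace Pool.Agent.Helper33.SP

open Pool.Agent.Helper95.Lin Pool.Agent.Helper10.SP Pool.Agent.Helper45.SP

/-- Products of elements near the identity agree on a ball. -/
theorem mul_eqOn {b : ℕ} {z₀ : Cn b} {r : ℝ} {A : Set (Tri b)} (hA : LGrp z₀ r A)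
    {ρ : ℝ} (hρ : 0 < ρ) (hρr : ρ ≤ r) {t s u : Tri b} (ht : t ∈ A) (hs : s ∈ A) (hu : u ∈ A)
    (hmul : IsMul z₀ u t s) (hmaps : MapsTo s.g (ball z₀ ρ) (ball z₀ r)) :
    ∀ z ∈ ball z₀ ρ, u.g z = t.g (s.g z) := by
  intro z hz
  have hsub : ball z₀ ρ ⊆ ball z₀ r := ball_subset_ball hρr
  have h1 : DifferentiableOn ℂ (fun z => u.g z - t.g (s.g z)) (ball z₀ ρ) :=
    ((hA.g_holo u hu).mono hsub).sub
      ((hA.g_holo t ht).comp ((hA.g_holo s hs).mono hsub) hmaps)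
  obtain ⟨d, hd, he⟩ := hmul
  have h2 : ∀ᶠ z in 𝓝 z₀, u.g z - t.g (s.g z) = 0 := by
    filter_upwards [ball_mem_nhds z₀ hd] with x hx
    exact sub_eq_zero.2 (he x hx).1
  exact sub_eq_zero.1 (Pool.Agent.Helper19.Lin.idt (ball z₀ ρ) isOpen_ball
    (convex_ball z₀ ρ).isPreconnected _ h1 z₀ (mem_ball_self hρ) h2 z hz)

theorem LSCALE (hPOW : S_POW) (hPEX : S_PEX) : S_LSCALE := by
  intro b z₀ r A hA t τ V ht hτ hτ0 hV hV0 hlim
  refine ⟨hV, hV0, fun ρ hρ ε hε => ?_⟩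
  have hr := hA.pos
  -- radii
  obtain ⟨ρ', hρ', hρ0, hρr⟩ : ∃ ρ' : ℝ, ρ ≤ ρ' ∧ 0 < ρ' ∧ ρ' < r :=
    ⟨max ρ (r / 2), le_max_left _ _, lt_of_lt_of_le (by linarith) (le_max_right _ _),
      max_lt hρ (by linarith)⟩
  obtain ⟨ρ₁, h1, h2⟩ : ∃ ρ₁ : ℝ, ρ' < ρ₁ ∧ ρ₁ < r := exists_between hρr
  have hρ₁ : 0 < ρ₁ := hρ0.trans h1
  have hKU : closedBall z₀ ρ₁ ⊆ ball z₀ r := closedBall_subset_ball h2
  have hbb : ball z₀ ρ₁ ⊆ closedBall z₀ ρ₁ := ball_subset_closedBall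
  -- bounds for V
  obtain ⟨B₀, hB₀, hB⟩ : ∃ B₀ : ℝ, 0 ≤ B₀ ∧ ∀ z ∈ closedBall z₀ ρ₁, ‖V z‖ ≤ B₀ := by
    obtain ⟨C, hC⟩ := (isCompact_closedBall z₀ ρ₁).exists_bound_of_continuousOn
      (hV.continuousOn.mono hKU)
    exact ⟨max C 0, le_max_right _ _, fun z hz => (hC z hz).trans (le_max_left _ _)⟩
  obtain ⟨Λ, hΛ₀, hΛ⟩ : ∃ Λ : ℝ, 0 ≤ Λ ∧ ∀ x ∈ closedBall z₀ ρ₁, ∀ y ∈ closedBall z₀ ρ₁,
      ‖V x - V y‖ ≤ Λ * ‖x - y‖ := by
    obtain ⟨K', hK', hK'c, -, C, hC, hC'⟩ := Pool.Agent.Helper68.Lin.CAU (n := b) (m := b)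
      (ball z₀ r) isOpen_ball (closedBall z₀ ρ₁) hKU (isCompact_closedBall z₀ ρ₁)
    obtain ⟨S, hS⟩ := hK'c.exists_bound_of_continuousOn (hV.continuousOn.mono hK')
    refine ⟨C * max S 0, mul_nonneg hC (le_max_right _ _), ?_⟩
    exact (hC' V hV (max S 0) fun z hz => (hS z hz).trans (le_max_left _ _)).2
  obtain ⟨cP, hcP, hP⟩ := hPOW hA ρ₁ hρ₁ h2
  obtain ⟨cE, hcE, hE⟩ := hPEX hA ρ₁ hρ₁ h2
  obtain ⟨B, hBdef⟩ : ∃ B : ℝ, B = B₀ + 1 := ⟨_, rfl⟩
  have hB1 : 1 ≤ B := by linarith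
  obtain ⟨c, hc, hccP, hccE⟩ : ∃ c : ℝ, 0 < c ∧ c ≤ cP ∧ c ≤ cE :=
    ⟨min cP cE, lt_min hcP hcE, min_le_left _ _, min_le_right _ _⟩
  -- the error
  obtain ⟨ε', hε', hε'1, hε'2⟩ : ∃ ε' : ℝ, 0 < ε' ∧ ε' ≤ 1 ∧ ε' * (1 + B) ≤ ε / 2 := by
    refine ⟨min 1 (ε / (2 * (1 + B))), lt_min one_pos (by positivity), min_le_left _ _, ?_⟩
    calc min 1 (ε / (2 * (1 + B))) * (1 + B) ≤ ε / (2 * (1 + B)) * (1 + B) :=
          mul_le_mul_of_nonneg_right (min_le_right _ _) (by linarith)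
      _ = ε / 2 := by field_simp
  obtain ⟨σ₀, hσ₀, hs1, hs2, hs3⟩ : ∃ σ₀ : ℝ, 0 < σ₀ ∧ 2 * σ₀ * B ≤ c ∧ 2 * σ₀ * B ≤ ρ₁ - ρ' ∧
      2 * Λ * σ₀ * B ≤ ε / 2 := by
    have hB0 : 0 < B := by linarith
    have h3 : 0 < ρ₁ - ρ' := by linarith
    refine ⟨min (min (c / (2 * B)) ((ρ₁ - ρ') / (2 * B))) (ε / (4 * (Λ + 1) * B)),
      lt_min (lt_min (by positivity) (by positivity)) (by positivity), ?_, ?_, ?_⟩
    · have : min (min (c / (2 * B)) ((ρ₁ - ρ') / (2 * B))) (ε / (4 * (Λ + 1) * B)) ≤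
          c / (2 * B) := (min_le_left _ _).trans (min_le_left _ _)
      calc _ ≤ 2 * (c / (2 * B)) * B := by gcongr
        _ = c := by field_simp
    · have : min (min (c / (2 * B)) ((ρ₁ - ρ') / (2 * B))) (ε / (4 * (Λ + 1) * B)) ≤
          (ρ₁ - ρ') / (2 * B) := (min_le_left _ _).trans (min_le_right _ _)
      calc _ ≤ 2 * ((ρ₁ - ρ') / (2 * B)) * B := by gcongr
        _ = ρ₁ - ρ' := by field_simp
    · have : min (min (c / (2 * B)) ((ρ₁ - ρ') / (2 * B))) (ε / (4 * (Λ + 1) * B)) ≤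
          ε / (4 * (Λ + 1) * B) := min_le_right _ _
      calc _ ≤ 2 * (Λ + 1) * (ε / (4 * (Λ + 1) * B)) * B := by
            gcongr
            linarith
        _ = ε / 2 := by field_simp; norm_num
  refine ⟨σ₀, hσ₀, fun σ hσ hσσ => ?_⟩
  have hs1' : 2 * σ * B ≤ c := by nlinarith
  have hs2' : 2 * σ * B ≤ ρ₁ - ρ' := by nlinarith
  have hs3' : 2 * Λ * σ * B ≤ ε / 2 := by
    have : 2 * Λ * σ * B ≤ 2 * Λ * σ₀ * B := by gcongr
    linarith
  -- the index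
  obtain ⟨k, hk1, hk2⟩ : ∃ k, τ k ≤ ε' * σ ∧
      ∀ z ∈ ball z₀ ρ₁, ‖(t k).g z - z - τ k • V z‖ ≤ ε' * τ k := by
    have e1 : ∀ᶠ k in atTop, τ k ≤ ε' * σ :=
      (hτ0.eventually (gt_mem_nhds (mul_pos hε' hσ))).mono fun k hk => le_of_lt hk
    exact (e1.and (hlim ρ₁ h2 ε' hε')).exists
  have hτk := hτ k
  generalize hs : t k = s at hk2
  have hsA : s ∈ A := hs ▸ ht k
  generalize τ k = w at hk1 hk2 hτk
  have hwσ : w ≤ σ := hk1.trans (by nlinarith)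
  have hmove : ∀ z ∈ ball z₀ ρ₁, ‖s.g z - z‖ ≤ B * w := by
    intro z hz
    have e1 : s.g z - z = (s.g z - z - w • V z) + w • V z := by abel
    rw [e1]
    refine (norm_add_le _ _).trans ?_
    have e2 : ‖w • V z‖ = w * ‖V z‖ := by rw [norm_smul, Real.norm_of_nonneg hτk.le]
    rw [e2]
    have e3 := hk2 z hz
    have e4 := hB z (hbb hz)
    nlinarith
  have hJ1 : (⌊σ / w⌋₊ : ℝ) * w ≤ σ := by
    have := Nat.floor_le (div_nonneg hσ.le hτk.le)
    rwa [le_div_iff₀ hτk] at this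
  have hJ2 : σ < ((⌊σ / w⌋₊ : ℝ) + 1) * w := by
    have := Nat.lt_floor_add_one (σ / w)
    rwa [div_lt_iff₀ hτk] at this
  generalize ⌊σ / w⌋₊ = J at hJ1 hJ2
  obtain ⟨u, hu1, hu2, hu3⟩ := hE s hsA (fun z hz => (hmove z hz).trans (by nlinarith))
  -- the powers stay near the identity
  have hnear : ∀ l ≤ J, ∀ l' ≤ l, Near z₀ ρ₁ (u l').g (2 * l' * B * w) := by
    intro l
    induction l with
    | zero =>
      intro _ l' hl' z hz
      obtain rfl : l' = 0 := by omega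
      have := (hu2 z (hKU (hbb hz))).1
      rw [this]
      simp [Tri.one]
    | succ l ih =>
      intro hl l' hl'
      have ih' := ih (by omega)
      have hc' : ∀ l' ≤ l, 2 * (l' : ℝ) * B * w ≤ c := by
        intro l' hl'
        have e1 : (l' : ℝ) ≤ J := by exact_mod_cast (by omega : l' ≤ J)
        have e2 : (l' : ℝ) * w ≤ σ := (mul_le_mul_of_nonneg_right e1 hτk.le).trans hJ1
        nlinarith
      rcases Nat.lt_succ_iff_lt_or_eq.1 (Nat.lt_succ_of_le hl') with h | h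
      · exact ih' l' (by omega)
      · subst h
        have hpw : Powers z₀ r A s (l + 1) u := by
          refine ⟨hu1, hu2, fun l' hl' => hu3 l' fun z hz => ?_⟩
          exact (ih' l' (by omega) z hz).trans ((hc' l' (by omega)).trans hccE)
        have := hP s hsA (fun z hz => (hmove z hz).trans (by nlinarith)) (l + 1) u hpw
          (fun l' hl' z hz =>
            (ih' l' (by omega) z hz).trans ((hc' l' (by omega)).trans hccP))
        intro z hz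
        refine (this z hz).2.trans ?_
        have e1 := hmove z hz
        have e2 : (0 : ℝ) ≤ ((l + 1 : ℕ) : ℝ) := Nat.cast_nonneg _
        nlinarith [mul_le_mul_of_nonneg_left e1 e2]
  have hnear' : ∀ l ≤ J, ∀ z ∈ ball z₀ ρ₁, ‖(u l).g z - z‖ ≤ 2 * σ * B := by
    intro l hl z hz
    refine (hnear l hl l le_rfl z hz).trans ?_
    have e1 : (l : ℝ) ≤ J := by exact_mod_cast hl
    have e2 : (l : ℝ) * w ≤ σ := (mul_le_mul_of_nonneg_right e1 hτk.le).trans hJ1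
    nlinarith
  have hstep : ∀ l < J, ∀ z ∈ ball z₀ ρ',
      ‖(u (l + 1)).g z - (u l).g z - w • V z‖ ≤ w * (ε' + 2 * Λ * σ * B) := by
    intro l hl z hz
    have hz1 : z ∈ ball z₀ ρ₁ := ball_subset_ball h1.le hz
    have hmem : ∀ x ∈ ball z₀ ρ', (u l).g x ∈ ball z₀ ρ₁ := by
      intro x hx
      have e1 := hnear' l hl.le x (ball_subset_ball h1.le hx)
      rw [mem_ball, dist_eq_norm] at hx ⊢
      calc ‖(u l).g x - z₀‖ = ‖((u l).g x - x) + (x - z₀)‖ := by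
            congr 1
            abel
        _ ≤ ‖(u l).g x - x‖ + ‖x - z₀‖ := norm_add_le _ _
        _ < ρ₁ := by linarith
    have hm : IsMul z₀ (u (l + 1)) s (u l) := by
      refine hu3 l fun x hx => (hnear' l hl.le x hx).trans ?_
      linarith
    have he := mul_eqOn hA hρ0 hρr.le hsA (hu1 l) (hu1 (l + 1)) hm
      (fun x hx => hKU (hbb (hmem x hx))) z hz
    have hy := hmem z hz
    have e1 := hk2 _ hy
    have e2 := hΛ _ (hbb hy) _ (hbb hz1)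
    have e3 := hnear' l hl.le z hz1
    have e4 : (u (l + 1)).g z - (u l).g z - w • V z =
        (s.g ((u l).g z) - (u l).g z - w • V ((u l).g z)) + w • (V ((u l).g z) - V z) := by
      rw [he, smul_sub]
      abel
    rw [e4]
    refine (norm_add_le _ _).trans ?_
    rw [norm_smul, Real.norm_of_nonneg hτk.le]
    have e5 : ‖V ((u l).g z) - V z‖ ≤ Λ * (2 * σ * B) :=
      e2.trans (mul_le_mul_of_nonneg_left e3 hΛ₀)
    nlinarith [mul_le_mul_of_nonneg_left e5 hτk.le]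
  have hsum : ∀ l ≤ J, ∀ z ∈ ball z₀ ρ',
      ‖(u l).g z - z - (l * w) • V z‖ ≤ l * w * (ε' + 2 * Λ * σ * B) := by
    intro l
    induction l with
    | zero =>
      intro _ z hz
      have := (hu2 z (ball_subset_ball hρr.le hz)).1
      rw [this]
      simp [Tri.one]
    | succ l ih =>
      intro hl z hz
      have e1 := ih (by omega) z hz
      have e2 := hstep l (by omega) z hz
      have e3 : (u (l + 1)).g z - z - (((l + 1 : ℕ) : ℝ) * w) • V z =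
          ((u l).g z - z - (l * w) • V z) + ((u (l + 1)).g z - (u l).g z - w • V z) := by
        push_cast
        rw [add_mul, one_mul, add_smul]
        abel
      rw [e3]
      refine (norm_add_le _ _).trans ?_
      push_cast
      nlinarith
  refine ⟨u J, hu1 J, fun z hz => ?_⟩
  have hz' : z ∈ ball z₀ ρ' := ball_subset_ball hρ' hz
  have hz1 : z ∈ ball z₀ ρ₁ := ball_subset_ball h1.le hz'
  have e1 := hsum J le_rfl z hz'
  have e2 : (u J).g z - z - σ • V z = ((u J).g z - z - (J * w) • V z) + (J * w - σ) • V z := by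
    rw [sub_smul]
    abel
  rw [e2]
  refine (norm_add_le _ _).trans ?_
  rw [norm_smul]
  have e3 : ‖(J : ℝ) * w - σ‖ ≤ ε' * σ := by
    rw [Real.norm_eq_abs, abs_le]
    constructor <;> nlinarith
  have e4 := hB z (hbb hz1)
  have e5 : ‖(J : ℝ) * w - σ‖ * ‖V z‖ ≤ ε' * σ * B := by
    refine mul_le_mul e3 (by linarith) (norm_nonneg _) (by positivity)
  have e6 : (J : ℝ) * w * (ε' + 2 * Λ * σ * B) ≤ σ * (ε' + 2 * Λ * σ * B) := by
    refine mul_le_mul_of_nonneg_right hJ1 (by positivity)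
  have e7 : σ * (ε' + 2 * Λ * σ * B) + ε' * σ * B = σ * (ε' * (1 + B) + 2 * Λ * σ * B) := by
    ring
  nlinarith [mul_le_mul_of_nonneg_left (add_le_add hε'2 hs3') hσ.le]

end Pool.Agent.Helper33.SP
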